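import Mathlib

/-!
# Carlson–Simpson space: definitions

`EInf` is the space of all equivalence relations on the natural numbers with infinitely many
classes, exactly as in the problem file.  `RS` is the monoid of rigid surjections, which codes it.
-/

namespace Pool.Agent.N623.CS

open Set

/-! ## The space of the problem -/

/-- The least elements of the classes of an equivalence relation on the natural numbers. -/
def mins (A : Setoid ℕ) : Set ℕ := {m | ∀ k, k < m → ¬ A.r k m}

/-- The equivalence relations on the natural numbers with infinitely many classes. -/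
def EInf : Type := {A : Setoid ℕ // (mins A).Infinite}

/-- The increasing enumeration of the least elements of the classes. -/
noncomputable def mu (A : EInf) (n : ℕ) : ℕ := Nat.nth (fun m => m ∈ mins A.1) n

open Classical in
/-- The code `x_A` in `2^(ℕ × ℕ)`: `x_A (n, m) = 1` iff `m A μ_n(A)`. -/
noncomputable def code (A : EInf) : ℕ × ℕ → Bool := fun p => decide (A.1.r p.2 (mu A p.1))

/-- The Polish topology of the problem. -/
noncomputable instance : TopologicalSpace EInf := TopologicalSpace.induced code inferInstance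

/-- `A ≤ B`: every `A`-class is a union of `B`-classes. -/
def leE (A B : EInf) : Prop := ∀ k m, B.1.r k m → A.1.r k m

/-- A finite equivalence relation on an initial segment `{0, …, len - 1}`. -/
structure FinEq where
  len : ℕ
  rel : Setoid (Fin len)

/-- `s = r_n(A)`: `s` is the restriction of `A` to `{0, …, μ_n(A) - 1}`. -/
def IsRestr (A : EInf) (n : ℕ) (s : FinEq) : Prop :=
  s.len = mu A n ∧ ∀ i j : Fin s.len, s.rel.r i j ↔ A.1.r i.1 j.1

/-- The set `[s, B]`. -/
def cube (s : FinEq) (B : EInf) : Set EInf := {A | leE A B ∧ ∃ n, IsRestr A n s}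

/-- The σ-ideal `𝓘(𝓔_∞)`. -/
def ideal : Set (Set EInf) :=
  {X | ∀ (s : FinEq) (A : EInf), (cube s A).Nonempty → ∃ B ∈ cube s A, cube s B ∩ X = ∅}

/-- A set is Borel. -/
def IsBorel {X : Type*} [TopologicalSpace X] (S : Set X) : Prop := @MeasurableSet X (borel X) S

/-- A map is Borel. -/
def BorelMap {X Y : Type*} [TopologicalSpace X] [TopologicalSpace Y] (f : X → Y) : Prop :=
  @Measurable X Y (borel X) (borel Y) f

/-- `E ≤_B F`. -/
def Reduces {X Y : Type*} [TopologicalSpace X] [TopologicalSpace Y]
    (E : Setoid X) (F : Setoid Y) : Prop :=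
  ∃ f : X → Y, BorelMap f ∧ ∀ x x', E.r x x' ↔ F.r (f x) (f x')

/-- The identity on `2^ℕ`. -/
def eqCantor : Setoid (ℕ → Bool) := ⊥

/-- Smooth equivalence relations. -/
def Smooth {X : Type*} [TopologicalSpace X] (E : Setoid X) : Prop := Reduces E eqCantor

/-- Hypersmooth equivalence relations: increasing unions of smooth ones. -/
def Hypersmooth {X : Type*} [TopologicalSpace X] (E : Setoid X) : Prop :=
  ∃ F : ℕ → Setoid X, (∀ n, Smooth (F n)) ∧ (∀ n x y, (F n).r x y → (F (n + 1)).r x y) ∧
    ∀ x y, E.r x y ↔ ∃ n, (F n).r x y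

/-- The restriction of an equivalence relation to a subset. -/
def restr {X : Type*} (E : Setoid X) (C : Set X) : Setoid C := E.comap Subtype.val

/-- The equivalence relation `E` is analytic. -/
def AnalyticEq {X : Type*} [TopologicalSpace X] (E : Setoid X) : Prop :=
  MeasureTheory.AnalyticSet {p : X × X | E.r p.1 p.2}

/-- `𝓘(𝓔_∞)` canonizes `E` to `F`. -/
def Canonizes {Y : Type*} [TopologicalSpace Y] (E : Setoid EInf) (F : Setoid Y) : Prop :=
  ∀ B : Set EInf, IsBorel B → B ∉ ideal →
    ∃ C : Set EInf, C ⊆ B ∧ IsBorel C ∧ C ∉ ideal ∧ Reduces (restr E C) F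

/-! ## The counterexample -/

open Classical in
/-- The number of classes of `A` which meet `{0, …, n - 1}`. -/
noncomputable def cntE (A : EInf) (n : ℕ) : ℕ := ((Finset.range n).filter (fun m => m ∈ mins A.1)).card

/-- `A E A'`: the counting functions of the least elements of classes stay at bounded distance. -/
def relE : Setoid EInf where
  r A A' := ∃ N : ℕ, ∀ n, cntE A n ≤ cntE A' n + N ∧ cntE A' n ≤ cntE A n + N
  iseqv :=
    { refl := fun _ => ⟨0, fun _ => ⟨le_rfl, le_rfl⟩⟩
      symm := fun ⟨N, h⟩ => ⟨N, fun n => ⟨(h n).2, (h n).1⟩⟩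
      trans := fun ⟨N, h⟩ ⟨M, k⟩ => ⟨N + M, fun n => by
        have h1 := h n
        have h2 := k n
        omega⟩ }

/-! ## Rigid surjections -/

/-- Rigid surjections of the natural numbers: onto, and the first occurrences of the values are
in increasing order. -/
def IsRS (f : ℕ → ℕ) : Prop :=
  (∀ m v, v < f m → ∃ i, i < m ∧ f i = v) ∧ Function.Surjective f

theorem isRS_id : IsRS id := ⟨fun m v h => ⟨v, h, rfl⟩, Function.surjective_id⟩

theorem IsRS.comp {f g : ℕ → ℕ} (hf : IsRS f) (hg : IsRS g) : IsRS (f ∘ g) := by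
  refine ⟨fun m v h => ?_, hf.2.comp hg.2⟩
  obtain ⟨i, hi, hv⟩ := hf.1 (g m) v h
  obtain ⟨j, hj, hj'⟩ := hg.1 m i hi
  exact ⟨j, hj, by simp [hj', hv]⟩

/-- The space of rigid surjections, with the topology of pointwise convergence. -/
def RS : Type := {f : ℕ → ℕ // IsRS f}

instance : TopologicalSpace RS := inferInstanceAs (TopologicalSpace {f : ℕ → ℕ // IsRS f})

instance : CoeFun RS (fun _ => ℕ → ℕ) := ⟨fun f => f.1⟩

theorem RS.ext {f g : RS} (h : ∀ n, f n = g n) : f = g := Subtype.ext (funext h)

/-- Composition: `(f * g) n = f (g n)`. -/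
instance : Monoid RS where
  mul f g := ⟨f.1 ∘ g.1, f.2.comp g.2⟩
  one := ⟨id, isRS_id⟩
  mul_assoc _ _ _ := rfl
  one_mul _ := rfl
  mul_one _ := rfl

@[simp] theorem RS.mul_apply (f g : RS) (n : ℕ) : (f * g) n = f (g n) := rfl

@[simp] theorem RS.one_apply (n : ℕ) : (1 : RS) n = n := rfl

/-- Rigid surjections which fix the first `d` letters. -/
def K (d : ℕ) : Set RS := {h | ∀ j, j < d → h j = j}

/-- Rigid surjections of the form: a word of length `q` using exactly the letters `0, …, p - 1`,
followed by the letters `p, p + 1, p + 2, …`. -/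
def Sw (q p : ℕ) : Set RS := {w | (∀ j, j < q → w j < p) ∧ ∀ i, w (q + i) = p + i}

/-- `v` is the node of `g` at the letter `p`: the word of `g` up to and including the first
occurrence of the letter `p`, followed by `p + 1, p + 2, …`. -/
def IsNode (p : ℕ) (g v : RS) : Prop :=
  ∃ m, g m = p ∧ (∀ j, j < m → g j ≠ p) ∧ v ∈ Sw (m + 1) (p + 1) ∧ ∀ j, j ≤ m → v j = g j

/-- Completely Ramsey subsets. -/
def CR (X : Set RS) : Prop :=
  ∀ (d : ℕ) (B : RS), ∃ h ∈ K d, (∀ g ∈ K d, g * h * B ∈ X) ∨ (∀ g ∈ K d, g * h * B ∉ X)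

theorem one_mem_K (d : ℕ) : (1 : RS) ∈ K d := fun _ _ => rfl

theorem K_mul {d : ℕ} {g h : RS} (hg : g ∈ K d) (hh : h ∈ K d) : g * h ∈ K d := by
  intro j hj
  rw [RS.mul_apply, hh j hj, hg j hj]

theorem K_mono {d e : ℕ} (hde : d ≤ e) {g : RS} (hg : g ∈ K e) : g ∈ K d :=
  fun j hj => hg j (lt_of_lt_of_le hj hde)

/-- The number of letters of `f` which occur before position `n`. -/
def cnt (f : ℕ → ℕ) (n : ℕ) : ℕ := ((Finset.range n).filter (fun m => ∀ j, j < m → f j ≠ f m)).card

/-- `f` and `g` have counting functions at bounded distance. -/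
def Close (f g : ℕ → ℕ) : Prop := ∃ N : ℕ, ∀ n, cnt f n ≤ cnt g n + N ∧ cnt g n ≤ cnt f n + N

/-- The words `u w₀(a₀) … w_{j-1}(a_{j-1})`, where `w_i` is the left variable word which starts
with the variable and continues with `w i` (the variable is `none`). -/
def word {α : Type} (u : List α) (w : ℕ → List (Option α)) (a : ℕ → α) : ℕ → List α
  | 0 => u
  | j + 1 => word u w a j ++ (a j :: (w j).map (fun o => o.getD (a j)))

/-- Truncation of the integer `x` to the interval `[-k, k]`. -/
def clamp (k : ℕ) (x : ℤ) : ℤ := max (-(k : ℤ)) (min x k)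

/-- Two integer sequences whose truncations stay at bounded distance. -/
def CloseZ (a b : ℕ → ℤ) : Prop := ∃ N : ℕ, ∀ k, |clamp k (a k) - clamp k (b k)| ≤ N

end Pool.Agent.N623.CS
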