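import Pool.Agent.N623.CS.Stm
import Pool.Agent.N284.CS.Ideal
import Pool.Agent.N938.CS.Ult
import Pool.Agent.N644.CS.Word
import Pool.Agent.N727.CS.Pigeon
import Pool.Agent.N395.CS.Cut
import Pool.Agent.N862.CS.FacAmalg
import Pool.Agent.N293.CS.Inf
import Pool.Agent.N665.CS.Stage
import Pool.Agent.N707.CS.Fus
import Pool.Agent.N853.CS.Open
import Pool.Agent.N263.CS.Borel
import Pool.Agent.N51.CS.Baire1
import Pool.Agent.N692.CS.Baire2
import Pool.Agent.N711.CS.Emb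
import Pool.Agent.N490.CS.Close
import Pool.Agent.N953.CS.Tr
import Pool.Agent.N505.CS.Polish

/-!
# The final assembly
-/

namespace Pool.Agent.N623.CS

open Set

theorem t_baire (h1 : S_BAIRE1) (h2 : S_BAIRE2) : S_BAIRE := by
  intro ψ hψ h
  obtain ⟨n, m, c, hc⟩ := h1 ψ hψ h
  obtain ⟨a, b, hab, hn⟩ := h2 (ψ n) (hψ n) m c hc
  exact ⟨n, a, b, hab, hn⟩

/-- A Borel set outside the ideal contains a cube. -/
theorem cube_of_not_ideal (hB : S_BOREL) (hT : S_TR) : ∃ ρ : RS → EInf, Continuous ρ ∧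
    (∀ f g : RS, relE.r (ρ f) (ρ g) ↔ Close f g) ∧
    ∀ C : Set EInf, IsBorel C → C ∉ ideal →
      ∃ (d : ℕ) (B : RS), 0 < d ∧ ∀ g ∈ K d, ρ (g * B) ∈ C := by
  obtain ⟨ρ, hc, hs, hr, ht⟩ := hT
  refine ⟨ρ, hc, hr, fun C hC hCi => ?_⟩
  simp only [ideal, mem_setOf_eq, not_forall, not_exists, not_and] at hCi
  obtain ⟨s, A, ⟨A1, hA1⟩, hno⟩ := hCi
  obtain ⟨f, rfl⟩ := hs A1
  obtain ⟨d, hd, h1, h2⟩ := ht s A f hA1
  have hX : IsBorel (ρ ⁻¹' C) := by
    have := hc.borel_measurable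
    exact this hC
  obtain ⟨h, hh, hcr⟩ := hB _ hX d f
  refine ⟨d, h * f, hd, ?_⟩
  rcases hcr with hin | hout
  · intro g hg
    have := hin g hg
    rwa [mul_assoc] at this
  · exfalso
    refine hno _ (h1 h hh) ?_
    ext B
    simp only [mem_inter_iff, mem_empty_iff_false, iff_false, not_and]
    intro hBc hBC
    obtain ⟨g, hg, rfl⟩ := h2 h hh B hBc
    exact hout g hg hBC

theorem t_main (hB : S_BOREL) (hBa : S_BAIRE) (hE : S_EMB) (hC : S_CLOSE) (hT : S_TR)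
    {Y : Type*} [TopologicalSpace Y] (F : Setoid Y) (hF : Hypersmooth F)
    (C : Set EInf) (hCb : IsBorel C) (hCi : C ∉ ideal) : ¬ Reduces (restr relE C) F := by
  rintro ⟨f, hf, hred⟩
  obtain ⟨ρ, hρ, hr, hcube⟩ := cube_of_not_ideal hB hT
  obtain ⟨d, B, hd, hin⟩ := hcube C hCb hCi
  obtain ⟨G, hG, hGK, hGC⟩ := hE d hd
  obtain ⟨Fn, hsm, hmono, hunion⟩ := hF
  choose g hg hgr using hsm
  let X : (ℕ → ℤ) → C := fun a => ⟨ρ (G a * B), hin _ (hGK a)⟩
  have hmulB : Continuous (fun g : RS => g * B) := by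
    refine continuous_induced_rng.2 (continuous_pi fun n => ?_)
    exact (continuous_apply (B n)).comp continuous_subtype_val
  have hX : Continuous X := by
    refine Continuous.subtype_mk ?_ _
    exact hρ.comp (hmulB.comp hG)
  have hXr : ∀ a b, relE.r (X a).1 (X b).1 ↔ CloseZ a b := by
    intro a b
    rw [← hGC, ← hC _ _ B]
    exact hr _ _
  have hψ : ∀ n, Measurable (fun a => g n (f (X a))) := by
    intro n
    have h1 : @Measurable (ℕ → ℤ) C _ (borel C) X := by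
      have := hX.borel_measurable
      rwa [← BorelSpace.measurable_eq (α := ℕ → ℤ)] at this
    have h2 : @Measurable Y (ℕ → Bool) (borel Y) (borel _) (g n) := hg n
    have h3 : @Measurable (ℕ → ℤ) (ℕ → Bool) _ (borel _) (fun a => g n (f (X a))) :=
      (h2.comp hf).comp h1
    rwa [← BorelSpace.measurable_eq (α := ℕ → Bool)] at h3
  have hcloseZ : ∀ (a z : ℕ → ℤ), (∀ k, z k = 0 ∨ z k = 1) → CloseZ a (a + z) := by
    intro a z hz
    refine ⟨1, fun k => ?_⟩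
    have := hz k
    simp only [clamp, Pi.add_apply]
    rcases this with h | h <;> rw [h] <;> simp only [abs_le] <;> constructor <;> omega
  obtain ⟨n, a, b, hab, hn⟩ := hBa (fun n a => g n (f (X a))) hψ (by
    intro a z hz
    have h1 := (hXr a (a + z)).2 (hcloseZ a z hz)
    have h2 := (hred (X a) (X (a + z))).1 h1
    obtain ⟨n, hn⟩ := (hunion _ _).1 h2
    exact ⟨n, (hgr n _ _).1 hn⟩)
  apply hn
  rw [← hXr]
  have h3 : (Fn n).r (f (X a)) (f (X b)) := (hgr n _ _).2 hab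
  exact (hred (X a) (X b)).2 ((hunion _ _).2 ⟨n, h3⟩)

theorem pigeon : S_PIGEON :=
  Pool.Agent.N727.CS.t_pigeon (Pool.Agent.N644.CS.t_word
    (Pool.Agent.N938.CS.t_ult Pool.Agent.N284.CS.t_ideal))

theorem fus : S_FUS :=
  Pool.Agent.N707.CS.t_fus Pool.Agent.N862.CS.t_fac Pool.Agent.N293.CS.t_inf
    (Pool.Agent.N665.CS.t_stage Pool.Agent.N862.CS.t_fac Pool.Agent.N862.CS.t_amalg)

theorem borel_cr : S_BOREL :=
  Pool.Agent.N263.CS.t_borel Pool.Agent.N395.CS.t_cut Pool.Agent.N862.CS.t_fac fus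
    (Pool.Agent.N853.CS.t_open Pool.Agent.N395.CS.t_cut Pool.Agent.N862.CS.t_fac
      Pool.Agent.N395.CS.t_node fus pigeon)

theorem not_reduces {Y : Type*} [TopologicalSpace Y] (F : Setoid Y) (hF : Hypersmooth F)
    (C : Set EInf) (hCb : IsBorel C) (hCi : C ∉ ideal) : ¬ Reduces (restr relE C) F :=
  t_main borel_cr (t_baire Pool.Agent.N51.CS.t_baire1 Pool.Agent.N692.CS.t_baire2)
    Pool.Agent.N711.CS.t_emb Pool.Agent.N490.CS.Close.t_close Pool.Agent.N953.CS.t_tr F hF C hCb hCi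

/-- The whole space is not in the ideal. -/
theorem univ_not_mem_ideal : (Set.univ : Set EInf) ∉ ideal := by
  intro h
  obtain ⟨ρ, hc, hs, hr, ht⟩ := Pool.Agent.N953.CS.t_tr
  let A : EInf := ρ 1
  let s : FinEq := ⟨mu A 0, A.1.comap Fin.val⟩
  have hA : A ∈ cube s A := ⟨fun _ _ h => h, 0, rfl, fun _ _ => Iff.rfl⟩
  obtain ⟨B, hB, he⟩ := h s A ⟨A, hA⟩
  have hBB : B ∈ cube s B ∩ Set.univ := ⟨⟨fun _ _ h => h, hB.2⟩, Set.mem_univ _⟩
  rw [he] at hBB
  exact hBB

theorem not_canonizes {Y : Type*} [TopologicalSpace Y] (F : Setoid Y) (hF : Hypersmooth F) :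
    ¬ Canonizes relE F := by
  intro h
  obtain ⟨C, -, hCb, hCi, hred⟩ := h Set.univ (@MeasurableSet.univ EInf (borel EInf))
    univ_not_mem_ideal
  exact not_reduces F hF C hCb hCi hred

theorem analytic : AnalyticEq relE := by
  obtain ⟨G, hG, hU⟩ := Pool.Agent.N505.CS.t_closed
  have : PolishSpace EInf := Pool.Agent.N505.CS.t_polish
  unfold AnalyticEq
  rw [hU]
  exact MeasureTheory.AnalyticSet.iUnion fun n => (hG n).analyticSet

end Pool.Agent.N623.CS
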