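import Pool.Agent.N623.CS.Defs

/-!
# Statements of the lemmas (each is proved in a separate file)
-/

namespace Pool.Agent.N623.CS

open Set

/-- (A1) Minimal closed left ideals in compact right topological semigroups. -/
def S_IDEAL : Prop := ∀ (M : Type) [Semigroup M] [TopologicalSpace M] [CompactSpace M] [T2Space M]
  [Nonempty M], (∀ r : M, Continuous (fun x : M => x * r)) →
  ∃ L : Set M, L.Nonempty ∧ IsClosed L ∧ (∀ x, ∀ y ∈ L, x * y ∈ L) ∧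
    ∀ f ∈ L, ∀ y ∈ L, ∃ z, y = z * f

/-- (A2) The ultrafilters: `e` concentrates on left variable words, its substitution images `f a`
satisfy `f a * f b = f a`. -/
def S_ULT : Prop := ∀ (k : ℕ), 0 < k →
  ∃ (e : Ultrafilter (List (Option (Fin k)))) (f : Fin k → Ultrafilter (List (Fin k))),
    (∀ a, f a = e.map (fun w => w.map (fun o => o.getD a))) ∧
    {w : List (Option (Fin k)) | ∃ w', w = none :: w'} ∈ e ∧
    ∀ (a b : Fin k) (s : Set (List (Fin k))), s ∈ f a → {x | {y | x ++ y ∈ s} ∈ f b} ∈ f a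

/-- (A3) The infinite Carlson–Simpson lemma for left variable words. -/
def S_WORD : Prop := ∀ (k : ℕ), 0 < k → ∀ O : Set (List (Fin k)),
  ∃ (u : List (Fin k)) (w : ℕ → List (Option (Fin k))),
    (∀ (a : ℕ → Fin k) (j : ℕ), word u w a j ∈ O) ∨ (∀ (a : ℕ → Fin k) (j : ℕ), word u w a j ∉ O)

/-- (A4) The pigeonhole principle for nodes. -/
def S_PIGEON : Prop := ∀ (p : ℕ) (O : Set RS), ∃ h ∈ K p,
  (∀ g ∈ K p, ∀ v, IsNode p (g * h) v → v ∈ O) ∨ (∀ g ∈ K p, ∀ v, IsNode p (g * h) v → v ∉ O)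

/-- (B1) Existence of cuts: the first `q` letters of `g`, followed by new letters. -/
def S_CUT : Prop := ∀ (g : RS) (q : ℕ), ∃ p, p ≤ q ∧ ∃ w ∈ Sw q p, ∀ j, j < q → w j = g j

/-- (B2) Factorization through a cut. -/
def S_FAC : Prop := ∀ (q p : ℕ), ∀ w ∈ Sw q p, ∀ g : RS, (∀ j, j < q → g j = w j) →
  ∃ g' ∈ K p, g = g' * w

/-- (B3) Amalgamation. -/
def S_AMALG : Prop := ∀ (q p : ℕ), ∀ w ∈ Sw q p, ∀ h' ∈ K p, ∃ h ∈ K q, w * h = h' * w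

/-- (B4) Existence of nodes. -/
def S_NODE : Prop := ∀ (g : RS) (p : ℕ), ∃ v, IsNode p g v

/-- (B5) Infinite compositions. -/
def S_INF : Prop := ∀ (d : ℕ) (h : ℕ → RS), (∀ m, h m ∈ K (d + m)) →
  ∃ H : ℕ → RS, (∀ m, H m ∈ K (d + m)) ∧ ∀ m, H m = H (m + 1) * h m

/-- (B6) One stage of the fusion. -/
def S_STAGE : Prop := ∀ P : ℕ → ℕ → RS → Prop,
  (∀ q p A, ∃ h ∈ K p, P q p (h * A)) →
  (∀ q p A, ∀ h ∈ K p, P q p A → P q p (h * A)) →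
  ∀ (q : ℕ) (A : RS), ∃ h ∈ K q, ∀ p, ∀ w ∈ Sw q p, P q p (w * h * A)

/-- (B7) Fusion. -/
def S_FUS : Prop := ∀ P : ℕ → ℕ → RS → Prop,
  (∀ q p A, ∃ h ∈ K p, P q p (h * A)) →
  (∀ q p A, ∀ h ∈ K p, P q p A → P q p (h * A)) →
  ∀ (d : ℕ) (B : RS), ∃ h ∈ K d, ∀ q, d ≤ q → ∀ p, ∀ w ∈ Sw q p, P q p (w * h * B)

/-- (C1) The open case. -/
def S_OPEN : Prop := ∀ (d : ℕ) (O : Set RS),
  (∀ g ∈ O, ∃ q, ∀ g' : RS, (∀ j, j < q → g' j = g j) → g' ∈ O) →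
  ∃ h ∈ K d, (∀ g ∈ K d, g * h ∈ O) ∨ (∀ g ∈ K d, g * h ∉ O)

/-- (C2) Borel sets are completely Ramsey. -/
def S_BOREL : Prop := ∀ X : Set RS, IsBorel X → CR X

/-- (D1a) Many almost periods. -/
def S_BAIRE1 : Prop := ∀ ψ : ℕ → (ℕ → ℤ) → (ℕ → Bool), (∀ n, Measurable (ψ n)) →
  (∀ (a : ℕ → ℤ) (z : ℕ → ℤ), (∀ k, z k = 0 ∨ z k = 1) → ∃ n, ψ n a = ψ n (a + z)) →
  ∃ (n m : ℕ) (c : ℕ → ℤ), ∀ (δ : ℕ → ℤ) (M : ℕ), ∃ γ : ℕ → ℤ,
    (∀ j, j < m → γ j = 0) ∧ (∀ j, m ≤ j → j < M → γ j = δ j) ∧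
    ∀ᶠ b in residual (ℕ → ℤ), (∀ j, j < m → b j = c j) → ψ n b = ψ n (b + γ)

/-- (D1b) A function with many almost periods takes the same value at two points which are not
close. -/
def S_BAIRE2 : Prop := ∀ φ : (ℕ → ℤ) → (ℕ → Bool), Measurable φ → ∀ (m : ℕ) (c : ℕ → ℤ),
  (∀ (δ : ℕ → ℤ) (M : ℕ), ∃ γ : ℕ → ℤ,
    (∀ j, j < m → γ j = 0) ∧ (∀ j, m ≤ j → j < M → γ j = δ j) ∧
    ∀ᶠ b in residual (ℕ → ℤ), (∀ j, j < m → b j = c j) → φ b = φ (b + γ)) →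
  ∃ a b : ℕ → ℤ, φ a = φ b ∧ ¬ CloseZ a b

/-- (D1) The Baire category lemma. -/
def S_BAIRE : Prop := ∀ ψ : ℕ → (ℕ → ℤ) → (ℕ → Bool), (∀ n, Measurable (ψ n)) →
  (∀ (a : ℕ → ℤ) (z : ℕ → ℤ), (∀ k, z k = 0 ∨ z k = 1) → ∃ n, ψ n a = ψ n (a + z)) →
  ∃ (n : ℕ) (a b : ℕ → ℤ), ψ n a = ψ n b ∧ ¬ CloseZ a b

/-- (D2) The embedding. -/
def S_EMB : Prop := ∀ d : ℕ, 0 < d → ∃ G : (ℕ → ℤ) → RS, Continuous G ∧ (∀ a, G a ∈ K d) ∧
  ∀ a b, Close (G a) (G b) ↔ CloseZ a b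

/-- (D3) Closeness does not change under composition on the right. -/
def S_CLOSE : Prop := ∀ f g B : RS, Close (f * B : RS) (g * B : RS) ↔ Close f g

/-- (E1) Equivalence relations with infinitely many classes as rigid surjections. -/
def S_TR : Prop := ∃ ρ : RS → EInf, Continuous ρ ∧ Function.Surjective ρ ∧
  (∀ f g : RS, relE.r (ρ f) (ρ g) ↔ Close f g) ∧
  (∀ (s : FinEq) (A : EInf) (f : RS), ρ f ∈ cube s A → ∃ d, 0 < d ∧ (∀ h ∈ K d, ρ (h * f) ∈ cube s A) ∧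
    ∀ h ∈ K d, ∀ B ∈ cube s (ρ (h * f)), ∃ g ∈ K d, B = ρ (g * h * f))

/-- (E2) The space `EInf` is Polish. -/
def S_POLISH : Prop := PolishSpace EInf

/-- (E3) The relation is a countable union of closed sets. -/
def S_CLOSED : Prop := ∃ F : ℕ → Set (EInf × EInf), (∀ N, IsClosed (F N)) ∧
  {p : EInf × EInf | relE.r p.1 p.2} = ⋃ N, F N

end Pool.Agent.N623.CS
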